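import Mathlib

/-!
# Periods of the max-type recurrence `x (n+k) = max {x (n+k-1), …, x (n+1), 0} - x n`

For every `k ≥ 5` there is a periodic solution whose least period is outside the conjectured set:
period `3k-2` for `k ≥ 7`, period `4` for `k = 6`, period `54 = 2 * 27` for `k = 5`.
-/

set_option autoImplicit false

namespace Pool.Agent.Results.MP_06047d_an.EveryOrderFails

/-- `x` solves the recurrence of order `k`; the fold is `max {x (n+1), …, x (n+k-1), 0}` -/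
def IsSol (k : ℕ) (x : ℕ → ℝ) : Prop :=
  ∀ n, x (n + k) = (Finset.Ioo n (n + k)).fold max 0 x - x n

/-- the set of least periods of the periodic solutions -/
def Per (k : ℕ) : Set ℕ :=
  {N | ∃ x : ℕ → ℝ, IsSol k x ∧ IsLeast {p : ℕ | 0 < p ∧ ∀ n, x (n + p) = x n} N}

/-- the conjectured set -/
def Conj (k : ℕ) : Set ℕ :=
  {1, if Even k then 1 else 2, 2 * k, 3 * k - 1} ∪
    {N | ∃ a b : ℕ, 1 ≤ a ∧ 1 ≤ b ∧ Nat.Coprime a b ∧ N = (3 * k - 2) * a + (3 * k - 1) * b}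

theorem fold_eq (s : Finset ℕ) (x : ℕ → ℝ) (W : ℝ) (h0 : 0 ≤ W) (h1 : ∀ i ∈ s, x i ≤ W)
    (h2 : ∃ i ∈ s, x i = W) : s.fold max 0 x = W := by
  apply le_antisymm
  · rw [Finset.fold_max_le]
    exact ⟨h0, h1⟩
  · rw [Finset.le_fold_max]
    obtain ⟨i, hi, he⟩ := h2
    exact Or.inr ⟨i, hi, he.ge⟩

/-- a solution obtained from a finite window of integers -/
theorem sol_of (k N : ℕ) (hN : 0 < N) (f : ℕ → ℤ)
    (h0 : ∀ r < N, 0 ≤ f r + f ((r + k) % N))
    (h1 : ∀ r < N, ∀ j, 0 < j → j < k → f ((r + j) % N) ≤ f r + f ((r + k) % N))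
    (h2 : ∀ r < N, ∃ j, 0 < j ∧ j < k ∧ f ((r + j) % N) = f r + f ((r + k) % N)) :
    IsSol k (fun n => (f (n % N) : ℝ)) := by
  intro n
  have hr : n % N < N := Nat.mod_lt _ hN
  have hmod : ∀ j, (n + j) % N = (n % N + j) % N := by intro j; simp [Nat.add_mod]
  have key : (Finset.Ioo n (n + k)).fold max 0 (fun n => (f (n % N) : ℝ))
      = ((f (n % N) + f ((n % N + k) % N) : ℤ) : ℝ) := by
    apply fold_eq
    · exact_mod_cast h0 _ hr
    · intro i hi
      rw [Finset.mem_Ioo] at hi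
      obtain ⟨j, rfl⟩ : ∃ j, i = n + j := ⟨i - n, by omega⟩
      have := h1 _ hr j (by omega) (by omega)
      rw [← hmod] at this
      exact_mod_cast this
    · obtain ⟨j, hj0, hjk, he⟩ := h2 _ hr
      refine ⟨n + j, by rw [Finset.mem_Ioo]; omega, ?_⟩
      rw [← hmod] at he
      exact_mod_cast he
  rw [key]
  simp only [hmod k]
  push_cast
  ring

/-! ### Order at least seven -/

/-- one period of the solution of order `a + 6` -/
def f (a r : ℕ) : ℤ :=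
  if r < a then -1
  else if r = a then 0
  else if r < a + 3 then 1
  else if r < a + 5 then 0
  else if r < 2 * a + 5 then (r : ℤ) - (a + 4)
  else if r < 2 * a + 7 then a + 1
  else if r < 2 * a + 9 then a
  else if r < 2 * a + 11 then a + 1
  else if r < 3 * a + 11 then (3 * a + 11 : ℤ) - r
  else if r < 3 * a + 13 then 0
  else if r < 3 * a + 15 then 1
  else 0

theorem mod_cases (N t : ℕ) (ht : t < 2 * N) :
    (t < N ∧ t % N = t) ∨ (N ≤ t ∧ t % N = t - N) := by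
  rcases lt_or_ge t N with h | h
  · exact Or.inl ⟨h, Nat.mod_eq_of_lt h⟩
  · refine Or.inr ⟨h, ?_⟩
    rw [Nat.mod_eq_sub_mod h, Nat.mod_eq_of_lt (by omega)]

/-- the running maximum -/
def W (a r : ℕ) : ℤ :=
  if r < a then (r : ℤ) + 1
  else if r < 2 * a + 10 then a + 1
  else if r < 3 * a + 10 then (3 * a + 10 : ℤ) - r
  else 1

theorem f_spec (a r : ℕ) (hr : r < 3 * a + 16) :
    (r < a ∧ f a r = -1) ∨ (r = a ∧ f a r = 0) ∨ ((a < r ∧ r < a + 3) ∧ f a r = 1) ∨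
    ((a + 3 ≤ r ∧ r < a + 5) ∧ f a r = 0) ∨
    ((a + 5 ≤ r ∧ r < 2 * a + 5) ∧ f a r = (r : ℤ) - (a + 4)) ∨
    ((2 * a + 5 ≤ r ∧ r < 2 * a + 7) ∧ f a r = a + 1) ∨
    ((2 * a + 7 ≤ r ∧ r < 2 * a + 9) ∧ f a r = a) ∨
    ((2 * a + 9 ≤ r ∧ r < 2 * a + 11) ∧ f a r = a + 1) ∨
    ((2 * a + 11 ≤ r ∧ r < 3 * a + 11) ∧ f a r = (3 * a + 11 : ℤ) - r) ∨
    ((3 * a + 11 ≤ r ∧ r < 3 * a + 13) ∧ f a r = 0) ∨
    ((3 * a + 13 ≤ r ∧ r < 3 * a + 15) ∧ f a r = 1) ∨
    (r = 3 * a + 15 ∧ f a r = 0) := by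
  unfold f
  rcases lt_or_ge r a with h1 | h1
  · rw [if_pos h1]; omega
  rw [if_neg (by omega)]
  rcases eq_or_ne r a with h2 | h2
  · rw [if_pos h2]; omega
  rw [if_neg h2]
  rcases lt_or_ge r (a + 3) with h3 | h3
  · rw [if_pos h3]; omega
  rw [if_neg (by omega)]
  rcases lt_or_ge r (a + 5) with h4 | h4
  · rw [if_pos h4]; omega
  rw [if_neg (by omega)]
  rcases lt_or_ge r (2 * a + 5) with h5 | h5
  · rw [if_pos h5]; omega
  rw [if_neg (by omega)]
  rcases lt_or_ge r (2 * a + 7) with h6 | h6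
  · rw [if_pos h6]; omega
  rw [if_neg (by omega)]
  rcases lt_or_ge r (2 * a + 9) with h7 | h7
  · rw [if_pos h7]; omega
  rw [if_neg (by omega)]
  rcases lt_or_ge r (2 * a + 11) with h8 | h8
  · rw [if_pos h8]; omega
  rw [if_neg (by omega)]
  rcases lt_or_ge r (3 * a + 11) with h9 | h9
  · rw [if_pos h9]; omega
  rw [if_neg (by omega)]
  rcases lt_or_ge r (3 * a + 13) with h10 | h10
  · rw [if_pos h10]; omega
  rw [if_neg (by omega)]
  rcases lt_or_ge r (3 * a + 15) with h11 | h11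
  · rw [if_pos h11]; omega
  rw [if_neg (by omega)]
  omega

theorem W_spec (a r : ℕ) :
    (r < a ∧ W a r = (r : ℤ) + 1) ∨ ((a ≤ r ∧ r < 2 * a + 10) ∧ W a r = a + 1) ∨
    ((2 * a + 10 ≤ r ∧ r < 3 * a + 10) ∧ W a r = (3 * a + 10 : ℤ) - r) ∨
    (3 * a + 10 ≤ r ∧ W a r = 1) := by
  unfold W
  rcases lt_or_ge r a with h1 | h1
  · rw [if_pos h1]; omega
  rw [if_neg (by omega)]
  rcases lt_or_ge r (2 * a + 10) with h2 | h2
  · rw [if_pos h2]; omega
  rw [if_neg (by omega)]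
  rcases lt_or_ge r (3 * a + 10) with h3 | h3
  · rw [if_pos h3]; omega
  rw [if_neg (by omega)]
  omega

theorem W_eq (a r : ℕ) (ha : 1 ≤ a) (hr : r < 3 * a + 16) :
    f a r + f a ((r + (a + 6)) % (3 * a + 16)) = W a r := by
  have hm : (r + (a + 6)) % (3 * a + 16) < 3 * a + 16 := Nat.mod_lt _ (by omega)
  have h2 := f_spec a _ hm
  have h3 := mod_cases (3 * a + 16) (r + (a + 6)) (by omega)
  generalize (r + (a + 6)) % (3 * a + 16) = s at hm h2 h3 ⊢
  rcases f_spec a r hr with h | h | h | h | h | h | h | h | h | h | h | h <;>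
  rcases h2 with h2 | h2 | h2 | h2 | h2 | h2 | h2 | h2 | h2 | h2 | h2 | h2 <;>
  rcases W_spec a r with h4 | h4 | h4 | h4 <;> omega

theorem f_le (a r j : ℕ) (ha : 1 ≤ a) (hr : r < 3 * a + 16) (hj0 : 0 < j) (hj : j < a + 6) :
    f a ((r + j) % (3 * a + 16)) ≤ W a r := by
  have hm : (r + j) % (3 * a + 16) < 3 * a + 16 := Nat.mod_lt _ (by omega)
  have h2 := f_spec a _ hm
  have h3 := mod_cases (3 * a + 16) (r + j) (by omega)
  generalize (r + j) % (3 * a + 16) = s at hm h2 h3 ⊢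
  rcases h2 with h2 | h2 | h2 | h2 | h2 | h2 | h2 | h2 | h2 | h2 | h2 | h2 <;>
  rcases W_spec a r with h4 | h4 | h4 | h4 <;> omega

theorem f_eq (a r : ℕ) (ha : 1 ≤ a) (hr : r < 3 * a + 16) :
    ∃ j, 0 < j ∧ j < a + 6 ∧ f a ((r + j) % (3 * a + 16)) = W a r := by
  have aux : ∀ j, 0 < j → j < a + 6 → r + j < 3 * a + 16 → f a (r + j) = W a r →
      ∃ j, 0 < j ∧ j < a + 6 ∧ f a ((r + j) % (3 * a + 16)) = W a r := by
    intro j h0 h1 h2 h3
    exact ⟨j, h0, h1, by rw [Nat.mod_eq_of_lt h2]; exact h3⟩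
  have aux2 : ∀ j, 0 < j → j < a + 6 → 3 * a + 16 ≤ r + j → f a (r + j - (3 * a + 16)) = W a r →
      ∃ j, 0 < j ∧ j < a + 6 ∧ f a ((r + j) % (3 * a + 16)) = W a r := by
    intro j h0 h1 h2 h3
    refine ⟨j, h0, h1, ?_⟩
    rcases mod_cases (3 * a + 16) (r + j) (by omega) with ⟨h, e⟩ | ⟨h, e⟩
    · omega
    · rw [e]; exact h3
  have fin : ∀ t, t < 3 * a + 16 → (∀ v : ℤ, ∀ w : ℤ,
      ((t < a ∧ v = -1) ∨ (t = a ∧ v = 0) ∨ ((a < t ∧ t < a + 3) ∧ v = 1) ∨
      ((a + 3 ≤ t ∧ t < a + 5) ∧ v = 0) ∨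
      ((a + 5 ≤ t ∧ t < 2 * a + 5) ∧ v = (t : ℤ) - (a + 4)) ∨
      ((2 * a + 5 ≤ t ∧ t < 2 * a + 7) ∧ v = a + 1) ∨
      ((2 * a + 7 ≤ t ∧ t < 2 * a + 9) ∧ v = a) ∨
      ((2 * a + 9 ≤ t ∧ t < 2 * a + 11) ∧ v = a + 1) ∨
      ((2 * a + 11 ≤ t ∧ t < 3 * a + 11) ∧ v = (3 * a + 11 : ℤ) - t) ∨
      ((3 * a + 11 ≤ t ∧ t < 3 * a + 13) ∧ v = 0) ∨
      ((3 * a + 13 ≤ t ∧ t < 3 * a + 15) ∧ v = 1) ∨
      (t = 3 * a + 15 ∧ v = 0)) →
      ((r < a ∧ w = (r : ℤ) + 1) ∨ ((a ≤ r ∧ r < 2 * a + 10) ∧ w = a + 1) ∨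
      ((2 * a + 10 ≤ r ∧ r < 3 * a + 10) ∧ w = (3 * a + 10 : ℤ) - r) ∨
      (3 * a + 10 ≤ r ∧ w = 1)) → v = w) → f a t = W a r := by
    intro t ht h
    exact h _ _ (f_spec a t ht) (W_spec a r)
  rcases lt_or_ge r a with h | h
  · apply aux (a + 5) (by omega) (by omega) (by omega)
    apply fin _ (by omega)
    intro v w hv hw
    rcases hv with h2 | h2 | h2 | h2 | h2 | h2 | h2 | h2 | h2 | h2 | h2 | h2 <;> omega
  rcases lt_or_ge r (2 * a + 5) with h' | h'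
  · rcases lt_or_ge r (a + 1) with hq | hq
    · apply aux (2 * a + 5 - r) (by omega) (by omega) (by omega)
      apply fin _ (by omega)
      intro v w hv hw
      rcases hv with h2 | h2 | h2 | h2 | h2 | h2 | h2 | h2 | h2 | h2 | h2 | h2 <;> omega
    · apply aux (2 * a + 5 - r) (by omega) (by omega) (by omega)
      apply fin _ (by omega)
      intro v w hv hw
      rcases hv with h2 | h2 | h2 | h2 | h2 | h2 | h2 | h2 | h2 | h2 | h2 | h2 <;> omega
  rcases lt_or_ge r (2 * a + 6) with h'' | h''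
  · apply aux 1 (by omega) (by omega) (by omega)
    apply fin _ (by omega)
    intro v w hv hw
    rcases hv with h2 | h2 | h2 | h2 | h2 | h2 | h2 | h2 | h2 | h2 | h2 | h2 <;> omega
  rcases lt_or_ge r (2 * a + 9) with h3 | h3
  · apply aux (2 * a + 9 - r) (by omega) (by omega) (by omega)
    apply fin _ (by omega)
    intro v w hv hw
    rcases hv with h2 | h2 | h2 | h2 | h2 | h2 | h2 | h2 | h2 | h2 | h2 | h2 <;> omega
  rcases lt_or_ge r (3 * a + 10) with h4 | h4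
  · apply aux 1 (by omega) (by omega) (by omega)
    apply fin _ (by omega)
    intro v w hv hw
    rcases hv with h2 | h2 | h2 | h2 | h2 | h2 | h2 | h2 | h2 | h2 | h2 | h2 <;> omega
  rcases lt_or_ge r (3 * a + 13) with h5 | h5
  · apply aux (3 * a + 13 - r) (by omega) (by omega) (by omega)
    apply fin _ (by omega)
    intro v w hv hw
    rcases hv with h2 | h2 | h2 | h2 | h2 | h2 | h2 | h2 | h2 | h2 | h2 | h2 <;> omega
  rcases lt_or_ge r (3 * a + 14) with h6 | h6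
  · apply aux 1 (by omega) (by omega) (by omega)
    apply fin _ (by omega)
    intro v w hv hw
    rcases hv with h2 | h2 | h2 | h2 | h2 | h2 | h2 | h2 | h2 | h2 | h2 | h2 <;> omega
  · apply aux2 (4 * a + 17 - r) (by omega) (by omega) (by omega)
    apply fin _ (by omega)
    intro v w hv hw
    rcases hv with h2 | h2 | h2 | h2 | h2 | h2 | h2 | h2 | h2 | h2 | h2 | h2 <;> omega

theorem per_large (a : ℕ) (ha : 1 ≤ a) : 3 * a + 16 ∈ Per (a + 6) := by
  refine ⟨fun n => (f a (n % (3 * a + 16)) : ℝ), ?_, ?_, ?_⟩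
  · apply sol_of (a + 6) (3 * a + 16) (by omega)
    · intro r hr
      rw [W_eq a r ha hr]
      rcases W_spec a r with h4 | h4 | h4 | h4 <;> omega
    · intro r hr j h0 hj
      rw [W_eq a r ha hr]
      exact f_le a r j ha hr h0 hj
    · intro r hr
      rw [W_eq a r ha hr]
      exact f_eq a r ha hr
  · refine ⟨by omega, ?_⟩
    intro n
    simp
  · rintro d ⟨hd0, hd⟩
    by_contra hlt
    push Not at hlt
    have h1 : (f a ((0 + d) % (3 * a + 16)) : ℝ) = f a (0 % (3 * a + 16)) := hd 0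
    have h2 : (f a ((3 * a + 15 + d) % (3 * a + 16)) : ℝ)
        = f a ((3 * a + 15) % (3 * a + 16)) := hd (3 * a + 15)
    rw [zero_add, Nat.zero_mod, Nat.mod_eq_of_lt hlt] at h1
    have h1' : f a d = f a 0 := by exact_mod_cast h1
    have hf0 : f a 0 = -1 := by
      rcases f_spec a 0 (by omega) with h | h | h | h | h | h | h | h | h | h | h | h <;> omega
    have hda : d < a := by
      rcases f_spec a d hlt with h | h | h | h | h | h | h | h | h | h | h | h <;> omega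
    have e1 : (3 * a + 15 + d) % (3 * a + 16) = d - 1 := by
      rcases mod_cases (3 * a + 16) (3 * a + 15 + d) (by omega) with ⟨h, e⟩ | ⟨h, e⟩ <;> omega
    have e2 : (3 * a + 15) % (3 * a + 16) = 3 * a + 15 := Nat.mod_eq_of_lt (by omega)
    rw [e1, e2] at h2
    have h2' : f a (d - 1) = f a (3 * a + 15) := by exact_mod_cast h2
    have hA : f a (d - 1) = -1 := by
      rcases f_spec a (d - 1) (by omega) with h | h | h | h | h | h | h | h | h | h | h | h <;>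
        omega
    have hB : f a (3 * a + 15) = 0 := by
      rcases f_spec a (3 * a + 15) (by omega) with
        h | h | h | h | h | h | h | h | h | h | h | h <;> omega
    omega

/-! ### Order six and order five -/

def g6 (r : ℕ) : ℤ := [0, 0, 1, 1].getD r 0

theorem per_six : 4 ∈ Per 6 := by
  refine ⟨fun n => (g6 (n % 4) : ℝ), ?_, ?_, ?_⟩
  · apply sol_of 6 4 (by omega)
    · decide
    · intro r hr j h0 hj
      interval_cases r <;> interval_cases j <;> decide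
    · intro r hr
      refine ⟨if r = 0 then 2 else if r = 1 then 1 else if r = 2 then 1 else 3, ?_⟩
      interval_cases r <;> decide
  · exact ⟨by omega, fun n => by simp⟩
  · rintro d ⟨hd0, hd⟩
    by_contra hlt
    push Not at hlt
    have h1 : (g6 ((0 + d) % 4) : ℝ) = g6 (0 % 4) := hd 0
    have h2 : (g6 ((1 + d) % 4) : ℝ) = g6 (1 % 4) := hd 1
    have h1' : g6 ((0 + d) % 4) = g6 (0 % 4) := by exact_mod_cast h1
    have h2' : g6 ((1 + d) % 4) = g6 (1 % 4) := by exact_mod_cast h2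
    clear h1 h2 hd
    revert h1' h2'
    interval_cases d <;> decide

def L5 : List ℤ := [3, 0, -3, 0, 3, 0, 3, 6, 6, 3, 6, 3, 0, 0, 3, -3, 0, 3, 3, 0, 6, 6, 3, 3, 6, 0, 0,
  3, 3, -3, 3, 3, 0, 0, 6, 3, 3, 6, 6, 0, 3, 3, 0, -3, 3, 0, 0, 3, 6, 3, 6, 6, 3, 0]

def g5 (r : ℕ) : ℤ := L5.getD r 0

theorem g5_le : ∀ r ∈ Finset.range 54, 0 ≤ g5 r + g5 ((r + 5) % 54) ∧
    (∀ j ∈ Finset.Ioo 0 5, g5 ((r + j) % 54) ≤ g5 r + g5 ((r + 5) % 54)) ∧
    ∃ j ∈ Finset.Ioo 0 5, g5 ((r + j) % 54) = g5 r + g5 ((r + 5) % 54) := by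
  decide +kernel

theorem g5_per : ∀ d ∈ Finset.Ioo 0 54, ∃ r ∈ Finset.range 54, g5 ((r + d) % 54) ≠ g5 (r % 54) := by
  decide +kernel

theorem per_five : 54 ∈ Per 5 := by
  refine ⟨fun n => (g5 (n % 54) : ℝ), ?_, ?_, ?_⟩
  · apply sol_of 5 54 (by omega)
    · intro r hr
      exact (g5_le r (Finset.mem_range.2 hr)).1
    · intro r hr j h0 hj
      exact (g5_le r (Finset.mem_range.2 hr)).2.1 j (Finset.mem_Ioo.2 ⟨h0, hj⟩)
    · intro r hr
      obtain ⟨j, hj, he⟩ := (g5_le r (Finset.mem_range.2 hr)).2.2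
      rw [Finset.mem_Ioo] at hj
      exact ⟨j, hj.1, hj.2, he⟩
  · exact ⟨by omega, fun n => by simp⟩
  · rintro d ⟨hd0, hd⟩
    by_contra hlt
    push Not at hlt
    obtain ⟨r, _, hne⟩ := g5_per d (Finset.mem_Ioo.2 ⟨hd0, hlt⟩)
    have h : (g5 ((r + d) % 54) : ℝ) = g5 (r % 54) := hd r
    exact hne (by exact_mod_cast h)

/-! ### The result -/

/-- **For every `k ≥ 5` the conjectured inclusion fails**; more precisely `3k-2` is the least
period of some solution for every `k ≥ 7`, `4` for `k = 6`, `54` for `k = 5`, and these numbers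
are not in the conjectured set. -/
theorem result :
    (∀ k : ℕ, 7 ≤ k → 3 * k - 2 ∈ Per k ∧ 3 * k - 2 ∉ Conj k) ∧
    (4 ∈ Per 6 ∧ 4 ∉ Conj 6) ∧ (54 ∈ Per 5 ∧ 54 ∉ Conj 5) ∧
    ∀ k : ℕ, 5 ≤ k → ¬ Per k ⊆ Conj k := by
  have hL : ∀ k : ℕ, 7 ≤ k → 3 * k - 2 ∈ Per k ∧ 3 * k - 2 ∉ Conj k := by
    intro k hk
    obtain ⟨a, rfl⟩ : ∃ a, k = a + 6 := ⟨k - 6, by omega⟩
    constructor
    · have := per_large a (by omega)
      have e : 3 * (a + 6) - 2 = 3 * a + 16 := by omega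
      rw [e]; exact this
    · rintro (h | ⟨c, d, hc, hd, _, h⟩)
      · simp only [Set.mem_insert_iff, Set.mem_singleton_iff] at h
        split_ifs at h <;> omega
      · have h1 : (3 * (a + 6) - 2) * 1 ≤ (3 * (a + 6) - 2) * c := Nat.mul_le_mul_left _ hc
        have h2 : (3 * (a + 6) - 1) * 1 ≤ (3 * (a + 6) - 1) * d := Nat.mul_le_mul_left _ hd
        omega
  have h6 : 4 ∈ Per 6 ∧ 4 ∉ Conj 6 := by
    refine ⟨per_six, ?_⟩
    rintro (h | ⟨c, d, hc, hd, _, h⟩)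
    · simp only [Set.mem_insert_iff, Set.mem_singleton_iff] at h
      split_ifs at h <;> omega
    · omega
  have h5 : 54 ∈ Per 5 ∧ 54 ∉ Conj 5 := by
    refine ⟨per_five, ?_⟩
    rintro (h | ⟨c, d, hc, hd, hcd, h⟩)
    · simp only [Set.mem_insert_iff, Set.mem_singleton_iff] at h
      split_ifs at h <;> omega
    · have hc' : c = 2 := by omega
      have hd' : d = 2 := by omega
      subst hc' hd'
      exact absurd hcd (by decide)
  refine ⟨hL, h6, h5, ?_⟩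
  intro k hk hsub
  rcases Nat.lt_or_ge k 7 with h | h
  · interval_cases k
    · exact h5.2 (hsub h5.1)
    · exact h6.2 (hsub h6.1)
  · exact (hL k h).2 (hsub (hL k h).1)

end Pool.Agent.Results.MP_06047d_an.EveryOrderFails
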